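import Pool.Agent.H685R2.Hck.Final

/-!
A fixed finite graph is attached to a graph with lists; whether a new vertex is adjacent to an old
vertex `u` depends only on the list of `u`. This operation is computable in polynomial time.
-/

namespace Pool.Agent.Y12.HCKG

open Pool.Agent.H685R2.Poly
open Pool.Agent.H685R2.Hck (LGraph listProblem lst bits lists encodeGraph adjN adjN_iff
  encodeGraph_eq lead_encodeGraph row_encodeGraph lst_eq enc_eq length_bits)

section

variable (f R : ℕ) (E : LGraph (Fin R)) (nb : Fin R → Bool × ℕ)

/-- the new vertex `e` is adjacent to the vertices with list `T` -/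
def link (T : Set (Fin f)) (e : Fin R) : Prop := (nb e).1 = true ∧ ∀ v ∈ T, (v : ℕ) ≠ (nb e).2

/-- adjacency -/
def gAdj {n : ℕ} (G : LGraph (Fin n)) (L : Fin n → Set (Fin f)) :
    Fin n ⊕ Fin R → Fin n ⊕ Fin R → Prop
  | .inl u, .inl v => G.Adj u v
  | .inl u, .inr e => link f R nb (L u) e
  | .inr e, .inl u => link f R nb (L u) e
  | .inr e, .inr e' => E.Adj e e'

/-- the new graph -/
def gGraph {n : ℕ} (G : LGraph (Fin n)) (L : Fin n → Set (Fin f)) : LGraph (Fin (n + R)) where
  Adj x y := gAdj f R E nb G L (finSumFinEquiv.symm x) (finSumFinEquiv.symm y)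
  symm x y := by
    generalize finSumFinEquiv.symm x = a
    generalize finSumFinEquiv.symm y = b
    rcases a with u | e <;> rcases b with v | e'
    · exact G.symm _ _
    · exact id
    · exact id
    · exact E.symm _ _

open Classical in
/-- constant data -/
noncomputable def gdata : List ((Bool × ℕ) × List Bool) :=
  (List.finRange R).map fun e => (nb e, (List.finRange R).map fun e' => decide (E.Adj e e'))

/-- the operation on strings -/
noncomputable def gprog (x : List Bool) : List Bool :=
  List.replicate (lead x + R) true ++ false ::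
    (((List.range (lead x)).flatMap fun u =>
      ((rest x).drop (u * lead x)).take (lead x) ++
        ((gdata R E nb).map fun d => d.1.1 && !((lst f x u).getD d.1.2 false))) ++
    ((gdata R E nb).flatMap fun d =>
      ((List.range (lead x)).map fun u => d.1.1 && !((lst f x u).getD d.1.2 false)) ++ d.2))

theorem pf_gprog : PF (gprog f R E nb) := by
  have hn : PF (fun x : List Bool => lead x) := PF.lead PF.id'
  have hA : PF (fun x : List Bool => (List.range (lead x)).flatMap fun u =>
      ((rest x).drop (u * lead x)).take (lead x) ++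
        ((gdata R E nb).map fun d => d.1.1 && !((lst f x u).getD d.1.2 false))) := by
    refine PF.flatMap (f := fun c : List Bool × ℕ =>
      ((rest c.1).drop (c.2 * lead c.1)).take (lead c.1) ++
        ((gdata R E nb).map fun d => d.1.1 && !((lst f c.1 c.2).getD d.1.2 false)))
      (PF.range hn) ?_
    refine PF.append (PF.take (PF.lead PF.fst') (PF.drop (PF.mul PF.snd' (PF.lead PF.fst'))
      (PF.rest PF.fst'))) ?_
    exact PF.map (f := fun c : (List Bool × ℕ) × ((Bool × ℕ) × List Bool) =>
      c.2.1.1 && !((lst f c.1.1 c.1.2).getD c.2.1.2 false)) (PF.const (gdata R E nb))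
      (PF.and (PF.fst (PF.fst PF.snd')) (PF.not (PF.getD (PF.snd (PF.fst PF.snd'))
        (Pool.Agent.H685R2.Hck.PF.lst f (PF.fst PF.fst') (PF.snd PF.fst')) (PF.const false))))
  have hB : PF (fun x : List Bool => (gdata R E nb).flatMap fun d =>
      ((List.range (lead x)).map fun u => d.1.1 && !((lst f x u).getD d.1.2 false)) ++
        d.2) := by
    refine PF.flatMap (f := fun c : List Bool × ((Bool × ℕ) × List Bool) =>
      ((List.range (lead c.1)).map fun u => c.2.1.1 && !((lst f c.1 u).getD c.2.1.2 false)) ++
        c.2.2) (PF.const (gdata R E nb)) ?_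
    refine PF.append ?_ (PF.snd PF.snd')
    exact PF.map (f := fun c : (List Bool × ((Bool × ℕ) × List Bool)) × ℕ =>
      c.1.2.1.1 && !((lst f c.1.1 c.2).getD c.1.2.1.2 false)) (PF.range (PF.lead PF.fst'))
      (PF.and (PF.fst (PF.fst (PF.snd PF.fst'))) (PF.not (PF.getD
        (PF.snd (PF.fst (PF.snd PF.fst')))
        (Pool.Agent.H685R2.Hck.PF.lst f (PF.fst PF.fst') PF.snd') (PF.const false))))
  exact PF.append (PF.replicate (PF.add hn (PF.const _)) (PF.const true))
    (PF.cons (PF.const false) (PF.append hA hB))

variable {n : ℕ} (G : LGraph (Fin n)) (L : Fin n → Set (Fin f))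

theorem adjN_g (x y : Fin n ⊕ Fin R) (P : Prop) [Decidable P] (h : gAdj f R E nb G L x y ↔ P) :
    adjN (gGraph f R E nb G L) (finSumFinEquiv x) (finSumFinEquiv y) = decide P := by
  classical
  rw [adjN, dif_pos ⟨(finSumFinEquiv x).2, (finSumFinEquiv y).2⟩, decide_eq_decide, ← h]
  change gAdj f R E nb G L (finSumFinEquiv.symm (finSumFinEquiv x))
    (finSumFinEquiv.symm (finSumFinEquiv y)) ↔ _
  rw [Equiv.symm_apply_apply, Equiv.symm_apply_apply]

theorem link_iff (T : Set (Fin f)) (e : Fin R) :
    link f R nb T e ↔ ((nb e).1 && !((bits f T).getD (nb e).2 false)) = true := by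
  classical
  rw [Bool.and_eq_true, Bool.not_eq_true', link]
  refine and_congr_right fun _ => ?_
  by_cases hi : (nb e).2 < f
  · have h1 : (bits f T).getD (nb e).2 false = decide ((⟨(nb e).2, hi⟩ : Fin f) ∈ T) := by
      rw [List.getD_eq_getElem _ _ (by rw [length_bits]; exact hi)]
      simp [bits]
    rw [h1, decide_eq_false_iff_not]
    constructor
    · intro h hT
      exact h _ hT rfl
    · intro h v hv hvi
      apply h
      have : (⟨(nb e).2, hi⟩ : Fin f) = v := Fin.ext hvi.symm
      rw [this]
      exact hv
  · have h1 : (bits f T).getD (nb e).2 false = false := by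
      rw [List.getD_eq_default]
      rw [length_bits]
      omega
    simp only [h1, iff_true]
    intro v _
    have := v.2
    omega

theorem range_two {β : Type} (n R : ℕ) (g : ℕ → β) :
    (List.range (n + R)).map g =
      (List.finRange n).map (fun u : Fin n => g u) ++
        (List.finRange R).map (fun e : Fin R => g (n + e)) := by
  rw [List.range_add, List.map_append, List.map_map, finRange_map n g,
    finRange_map R (fun i => g (n + i))]
  rfl

theorem range_two_flatMap {β : Type} (n R : ℕ) (g : ℕ → List β) :
    (List.range (n + R)).flatMap g =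
      (List.finRange n).flatMap (fun u : Fin n => g u) ++
        (List.finRange R).flatMap (fun e : Fin R => g (n + e)) := by
  rw [List.flatMap_def, range_two, List.flatten_append]
  rfl

theorem fs_inl (u : Fin n) : ((finSumFinEquiv (.inl u : Fin n ⊕ Fin R) : Fin _) : ℕ) = u := by
  simp

theorem fs_inr (e : Fin R) :
    ((finSumFinEquiv (.inr e : Fin n ⊕ Fin R) : Fin _) : ℕ) = n + e := by
  simp

theorem row_g_inl (u : Fin n) :
    (List.range (n + R)).map (adjN (gGraph f R E nb G L) u) =
      (List.range n).map (adjN G u) ++
        ((gdata R E nb).map fun d => d.1.1 && !((bits f (L u)).getD d.1.2 false)) := by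
  classical
  rw [range_two]
  have h1 : (List.finRange n).map (fun v : Fin n => adjN (gGraph f R E nb G L) u v) =
      (List.range n).map (adjN G u) := by
    rw [← finRange_map n]
    refine List.map_congr_left fun v _ => ?_
    have h := adjN_g f R E nb G L (.inl u) (.inl v) (G.Adj u v) Iff.rfl
    rw [fs_inl, fs_inl] at h
    rw [h, adjN, dif_pos ⟨u.2, v.2⟩]
  have h2 : (List.finRange R).map
      (fun e : Fin R => adjN (gGraph f R E nb G L) u (n + e)) =
      (gdata R E nb).map fun d => d.1.1 && !((bits f (L u)).getD d.1.2 false) := by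
    rw [gdata, List.map_map]
    refine List.map_congr_left fun e _ => ?_
    have h := adjN_g f R E nb G L (.inl u) (.inr e)
      (((nb e).1 && !((bits f (L u)).getD (nb e).2 false)) = true) (link_iff f R nb (L u) e)
    rw [fs_inl, fs_inr, Bool.decide_eq_true] at h
    exact h
  rw [h1, h2]

theorem row_g_inr (e : Fin R) :
    (List.range (n + R)).map (adjN (gGraph f R E nb G L) (n + e)) =
      ((List.finRange n).map fun u =>
        (nb e).1 && !((bits f (L u)).getD (nb e).2 false)) ++
        (List.finRange R).map fun e' => @decide (E.Adj e e') (Classical.dec _) := by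
  classical
  rw [range_two]
  have h1 : (List.finRange n).map (fun u : Fin n => adjN (gGraph f R E nb G L) (n + e) u) =
      (List.finRange n).map fun u => (nb e).1 && !((bits f (L u)).getD (nb e).2 false) := by
    refine List.map_congr_left fun u _ => ?_
    have h := adjN_g f R E nb G L (.inr e) (.inl u)
      (((nb e).1 && !((bits f (L u)).getD (nb e).2 false)) = true) (link_iff f R nb (L u) e)
    rw [fs_inl, fs_inr, Bool.decide_eq_true] at h
    exact h
  have h2 : (List.finRange R).map
      (fun e' : Fin R => adjN (gGraph f R E nb G L) (n + e) (n + e')) =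
      (List.finRange R).map fun e' => @decide (E.Adj e e') (Classical.dec _) := by
    refine List.map_congr_left fun e' _ => ?_
    have h := @adjN_g f R E nb n G L (.inr e) (.inr e') (E.Adj e e') (Classical.dec _) Iff.rfl
    rw [fs_inr, fs_inr] at h
    exact h
  rw [h1, h2]

theorem gprog_eq : gprog f R E nb (encodeGraph G ++ lists f L) =
    encodeGraph (gGraph f R E nb G L) := by
  classical
  rw [encodeGraph_eq (gGraph f R E nb G L), gprog, lead_encodeGraph, range_two_flatMap]
  have h1 : ((List.range n).flatMap fun u =>
      ((rest (encodeGraph G ++ lists f L)).drop (u * n)).take n ++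
        ((gdata R E nb).map fun d =>
          d.1.1 && !((lst f (encodeGraph G ++ lists f L) u).getD d.1.2 false))) =
      (List.finRange n).flatMap fun u : Fin n =>
        (List.range (n + R)).map (adjN (gGraph f R E nb G L) u) := by
    rw [← finRange_flatMap n]
    refine List.flatMap_congr fun u _ => ?_
    rw [row_g_inl, row_encodeGraph G _ u.2, lst_eq]
  have h2 : ((gdata R E nb).flatMap fun d =>
      ((List.range n).map fun u =>
        d.1.1 && !((lst f (encodeGraph G ++ lists f L) u).getD d.1.2 false)) ++ d.2) =
      (List.finRange R).flatMap fun e : Fin R =>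
        (List.range (n + R)).map (adjN (gGraph f R E nb G L) (n + e)) := by
    rw [gdata, List.flatMap_map]
    refine List.flatMap_congr fun e _ => ?_
    rw [row_g_inr, ← finRange_map n]
    congr 1
    refine List.map_congr_left fun u _ => ?_
    rw [lst_eq]
  rw [h1, h2]

end

/-- If the operation translates the list colouring problem to a problem about graphs then it is a
reduction. -/
theorem reduces_of_gGraph {f : ℕ} (F : LGraph (Fin f)) (R : ℕ) (E : LGraph (Fin R))
    (nb : Fin R → Bool × ℕ) (yes : (Σ n : ℕ, LGraph (Fin n)) → Prop)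
    (h : ∀ (n : ℕ) (G : LGraph (Fin n)) (L : Fin n → Set (Fin f)),
      (listProblem F).yes ⟨n, G, L⟩ ↔ yes ⟨n + R, gGraph f R E nb G L⟩) :
    Reduces (listProblem F)
      { Inst := Σ n : ℕ, LGraph (Fin n), enc := fun a => encodeGraph a.2, yes := yes } := by
  refine Reduces.of_PF (P := listProblem F)
    (Q := { Inst := Σ n : ℕ, LGraph (Fin n), enc := fun a => encodeGraph a.2, yes := yes })
    (fun a => ⟨_, gGraph f R E nb a.2.1 a.2.2⟩) (pf_gprog f R E nb) ?_ ?_
  · rintro ⟨n, G, L⟩
    rw [enc_eq]
    exact gprog_eq f R E nb G L
  · rintro ⟨n, G, L⟩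
    exact h n G L

end Pool.Agent.Y12.HCKG
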