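import Pool.Agent.H685R2.Hck.Defs

/-!
The combinatorial part of the reduction with arbitrary positive weights.
-/

namespace Pool.Agent.Y12.HCKG

open Pool.Agent.H685R2.Hck (LGraph IsHom)

section defs

variable {f : ℕ}

/-- the new colours: `inl i` is `a i`, `inr true` is `z`, and `inr false` is `c` -/
abbrev J (f : ℕ) : Type := Fin f ⊕ Bool

/-- the new colour `j` is adjacent to all vertices in `T` -/
def lk : J f → Set (Fin f) → Prop
  | .inl i, T => i ∉ T
  | .inr b, _ => b = true

/-- adjacency of new colours -/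
def cAdj : J f → J f → Prop
  | .inl i, .inl j => f ≤ i + j + 1
  | .inr b, .inr b' => b ≠ b'
  | _, _ => False

theorem cAdj_symm (i j : J f) (h : cAdj i j) : cAdj j i := by
  rcases i with i | b <;> rcases j with j | b'
  · have h' : f ≤ i + j + 1 := h
    change f ≤ j + i + 1
    omega
  · exact h
  · exact h
  · exact Ne.symm h

/-- adjacency of the extension of `F` -/
def eAdj (F : LGraph (Fin f)) : Fin f ⊕ J f → Fin f ⊕ J f → Prop
  | .inl a, .inl b => F.Adj a b
  | .inl a, .inr j => lk j {a}
  | .inr j, .inl a => lk j {a}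
  | .inr i, .inr j => cAdj i j

/-- the extension of `F` -/
def ext (F : LGraph (Fin f)) : LGraph (Fin f ⊕ J f) where
  Adj := eAdj F
  symm := by
    rintro (a | i) (b | j) h
    · exact F.symm _ _ h
    · exact h
    · exact h
    · exact cAdj_symm _ _ h

variable (K : J f → ℕ)

/-- the new vertices -/
abbrev X : Type := (Fin f × Fin (K (.inr true) + 1)) ⊕ (Σ j : J f, Fin (K j))

/-- adjacency of new vertices -/
def xAdj : X K → X K → Prop
  | .inl _, .inl _ => False
  | .inl q, .inr x => lk x.1 {q.1}
  | .inr x, .inl q => lk x.1 {q.1}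
  | .inr x, .inr y => cAdj x.1 y.1

/-- the new vertex is adjacent to the vertices with list `T` -/
def xlk : X K → Set (Fin f) → Prop
  | .inl _, _ => False
  | .inr x, T => lk x.1 T

variable {V : Type} (G : LGraph V) (L : V → Set (Fin f))

/-- adjacency of the constructed graph -/
def rAdj : V ⊕ X K → V ⊕ X K → Prop
  | .inl u, .inl v => G.Adj u v
  | .inl u, .inr x => xlk K x (L u)
  | .inr x, .inl u => xlk K x (L u)
  | .inr x, .inr y => xAdj K x y

/-- the constructed graph -/
def red : LGraph (V ⊕ X K) where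
  Adj := rAdj K G L
  symm := by
    rintro (u | x | x) (v | y | y) h
    · exact G.symm _ _ h
    · exact h
    · exact h
    · exact h
    · exact h
    · exact h
    · exact h
    · exact h
    · exact cAdj_symm _ _ h

end defs

theorem lk_mono {f : ℕ} {j : J f} {S T : Set (Fin f)} (hST : S ⊆ T) (h : lk j T) : lk j S := by
  rcases j with i | b
  · exact fun hi => h (hST hi)
  · exact h

theorem ncard_fibers {T Y ι : Type} [Finite T] [DecidableEq ι] (χ : T → Y) (col : ι → Y)
    (hcol : Function.Injective col) (s : ι → ℕ) (hc : ∀ i, {x | χ x = col i}.ncard = s i)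
    (S : Finset ι) : {x | ∃ i ∈ S, χ x = col i}.ncard = ∑ i ∈ S, s i := by
  induction S using Finset.induction_on with
  | empty => simp
  | insert i S hi ih =>
    have h1 : {x | ∃ j ∈ insert i S, χ x = col j} =
        {x | χ x = col i} ∪ {x | ∃ j ∈ S, χ x = col j} := by
      ext x
      simp
    rw [h1, Set.ncard_union_eq ?_ (Set.toFinite _) (Set.toFinite _), ih, hc,
      Finset.sum_insert hi]
    rw [Set.disjoint_left]
    rintro x hx ⟨j, hj, hx'⟩
    rw [Set.mem_ofPred_eq] at hx
    rw [hx] at hx'
    rw [hcol hx'] at hi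
    exact hi hj

theorem ncard_range {T R : Type} [Fintype R] (g : R → T) (hg : Function.Injective g) :
    (Set.range g).ncard = Fintype.card R := by
  rw [← Set.image_univ, Set.ncard_image_of_injective _ hg, Set.ncard_univ,
    Nat.card_eq_fintype_card]

theorem ncard_sigma {ι : Type} [Finite ι] (K : ι → ℕ) (j : ι) :
    {x : Σ i, Fin (K i) | x.1 = j}.ncard = K j := by
  have h : {x : Σ i, Fin (K i) | x.1 = j} = Set.range (fun s : Fin (K j) =>
      (⟨j, s⟩ : Σ i, Fin (K i))) := by
    ext x
    constructor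
    · intro hx
      have hx' : x.1 = j := hx
      subst hx'
      exact ⟨x.2, rfl⟩
    · rintro ⟨s, rfl⟩
      rfl
  rw [h, ncard_range _ (fun a b hab => by simpa using hab), Fintype.card_fin]

section main

variable {f : ℕ} {K : J f → ℕ} {V : Type} {F : LGraph (Fin f)} {G : LGraph V}
  {L : V → Set (Fin f)}

/-- From a list colouring of `G` to a weighted colouring of the constructed graph. -/
theorem exists_weighted {χ : V → Fin f} (h1 : IsHom G F χ) (h2 : ∀ u, χ u ∈ L u) :
    ∃ χ' : V ⊕ X K → Fin f ⊕ J f, IsHom (red K G L) (ext F) χ' ∧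
      ∀ j : J f, {x | χ' x = .inr j}.ncard = K j := by
  refine ⟨Sum.elim (fun u => .inl (χ u)) (Sum.elim (fun q => .inl q.1)
    (fun x => .inr x.1)), ?_, ?_⟩
  · rintro (u | q | x) (v | q' | y) h
    · exact h1 u v h
    · exact h.elim
    · exact lk_mono (Set.singleton_subset_iff.2 (h2 u)) h
    · exact h.elim
    · exact h.elim
    · exact h
    · exact lk_mono (Set.singleton_subset_iff.2 (h2 v)) h
    · exact h
    · exact h
  · intro j
    have : {x : V ⊕ X K | Sum.elim (fun u => .inl (χ u)) (Sum.elim (fun q => .inl q.1)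
        (fun x => .inr x.1)) x = (.inr j : Fin f ⊕ J f)} =
        (fun x => .inr (.inr x)) '' {x : Σ i, Fin (K i) | x.1 = j} := by
      ext x
      rcases x with u | q | x
      · simp
      · simp
      · simp
    rw [this, Set.ncard_image_of_injective _ (fun a b h => by simpa using h), ncard_sigma]

/-- the clones of the `a i` -/
def emb (p : Σ i : Fin f, Fin (K (.inl i))) : V ⊕ X K := .inr (.inr ⟨.inl p.1, p.2⟩)

theorem emb_injective : Function.Injective (emb : (Σ i : Fin f, Fin (K (.inl i))) → V ⊕ X K) := by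
  rintro ⟨i, s⟩ ⟨j, t⟩ h
  have h1 := Sum.inr.inj (Sum.inr.inj h)
  simp only [Sigma.mk.injEq, Sum.inl.injEq] at h1
  obtain ⟨h2, h3⟩ := h1
  subst h2
  rw [eq_of_heq h3]

/-- From a weighted colouring of the constructed graph to a list colouring of `G`. -/
theorem exists_list [Finite V] (hK : ∀ j, 0 < K j) {χ : V ⊕ X K → Fin f ⊕ J f}
    (h : IsHom (red K G L) (ext F) χ) (hc : ∀ j : J f, {x | χ x = .inr j}.ncard = K j) :
    ∃ ψ : V → Fin f, IsHom G F ψ ∧ ∀ u, ψ u ∈ L u := by
  classical
  -- the number of vertices with colours in a set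
  have hcount : ∀ S : Finset (J f), {x | ∃ j ∈ S, χ x = .inr j}.ncard = ∑ j ∈ S, K j :=
    ncard_fibers χ Sum.inr Sum.inr_injective K hc
  -- neighbours of vertices with colour `c`
  have hcz : ∀ x, χ x = .inr (.inr false) → ∀ y, rAdj K G L x y → χ y = .inr (.inr true) := by
    intro x hx y hxy
    have h3 : eAdj F (χ x) (χ y) := h x y hxy
    rw [hx] at h3
    rcases hy : χ y with a | j | b
    · rw [hy] at h3
      exact absurd (show false = true from h3) (by decide)
    · rw [hy] at h3
      exact h3.elim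
    · rw [hy] at h3
      have h4 : false ≠ b := h3
      rcases b with _ | _
      · exact absurd rfl h4
      · rfl
  have hdeg : ∀ x, χ x = .inr (.inr false) → ∀ (R : Type) [Fintype R]
      (g : R → V ⊕ X K), Function.Injective g → (∀ r, rAdj K G L x (g r)) →
      Fintype.card R ≤ K (.inr true) := by
    intro x hx R _ g hg hadj
    rw [← ncard_range g hg, ← hc (.inr true)]
    refine Set.ncard_le_ncard ?_ (Set.toFinite _)
    rintro y ⟨r, rfl⟩
    exact hcz x hx _ (hadj r)
  rcases Nat.eq_zero_or_pos f with hf | hf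
  · subst hf
    -- all vertices have new colours
    have h3 : {x | ∃ j ∈ (Finset.univ : Finset (J 0)), χ x = .inr j} = Set.univ := by
      rw [Set.eq_univ_iff_forall]
      intro x
      rcases hx : χ x with a | j
      · exact a.elim0
      · exact ⟨j, Finset.mem_univ _, hx⟩
    have h4 := hcount Finset.univ
    rw [h3] at h4
    have h5 : Set.range (fun x : Σ j : J 0, Fin (K j) => (.inr (.inr x) : V ⊕ X K)) =
        Set.univ := by
      refine Set.eq_of_subset_of_ncard_le (Set.subset_univ _) ?_ (Set.toFinite _)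
      rw [h4, ncard_range _ (fun a b hab => by simpa using hab), Fintype.card_sigma]
      simp
    have h6 : IsEmpty V := by
      refine ⟨fun u => ?_⟩
      have h7 : (.inl u : V ⊕ X K) ∈ Set.range (fun x : Σ j : J 0, Fin (K j) =>
          (.inr (.inr x) : V ⊕ X K)) := by
        rw [h5]
        exact Set.mem_univ _
      obtain ⟨x, hx⟩ := h7
      cases hx
    exact ⟨fun u => h6.elim u, fun u => h6.elim u, fun u => h6.elim u⟩
  -- the clones of `a i` do not have colour `c`
  have hA1 : ∀ (i : Fin f) (s : Fin (K (.inl i))),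
      χ (.inr (.inr ⟨.inl i, s⟩)) ≠ .inr (.inr false) := by
    intro i s hx
    by_cases hi : f ≤ i + i + 1
    · have h3 := hcz _ hx (.inr (.inr ⟨.inl i, s⟩)) hi
      rw [hx] at h3
      exact absurd (Sum.inr.inj (Sum.inr.inj h3)) (by decide)
    · have h3 := hdeg _ hx (Fin (K (.inr true) + 1))
        (fun t => .inr (.inl (⟨f - 1, by omega⟩, t)))
        (fun a b hab => by simpa using hab) (fun t => ?_)
      · rw [Fintype.card_fin] at h3
        omega
      · change i ∉ ({⟨f - 1, by omega⟩} : Set (Fin f))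
        rw [Set.mem_singleton_iff]
        intro h4
        have h5 := congrArg Fin.val h4
        simp only at h5
        omega
  -- the clones of `z` do not have colour `c`
  have hA2 : ∀ s : Fin (K (.inr true)),
      χ (.inr (.inr ⟨.inr true, s⟩)) ≠ .inr (.inr false) := by
    intro s hx
    have h3 := hdeg _ hx (Fin (K (.inr true) + 1))
      (fun t => .inr (.inl (⟨0, hf⟩, t)))
      (fun a b hab => by simpa using hab) (fun t => rfl)
    rw [Fintype.card_fin] at h3
    omega
  -- the clones of `z` have colour `z`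
  have hZ : ∀ s : Fin (K (.inr true)), χ (.inr (.inr ⟨.inr true, s⟩)) = .inr (.inr true) := by
    intro s
    have h3 : {x | χ x = .inr (.inr false)}.Nonempty := by
      rw [← Set.ncard_pos (Set.toFinite _), hc]
      exact hK _
    obtain ⟨x, hx⟩ := h3
    refine hcz x hx _ ?_
    rcases x with u | q | ⟨i | b, t⟩
    · exact rfl
    · exact rfl
    · exact absurd hx (hA1 i t)
    · rcases b with _ | _
      · exact Bool.false_ne_true
      · exact absurd hx (hA2 t)
  -- the colours of neighbours of `z`
  have hB : ∀ y, rAdj K G L (.inr (.inr ⟨.inr true, ⟨0, hK _⟩⟩)) y →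
      (∃ a, χ y = .inl a) ∨ χ y = .inr (.inr false) := by
    intro y hy
    have h3 : eAdj F (χ (.inr (.inr ⟨.inr true, ⟨0, hK _⟩⟩))) (χ y) := h _ _ hy
    rw [hZ] at h3
    rcases hχ : χ y with a | j | b
    · exact .inl ⟨a, rfl⟩
    · rw [hχ] at h3
      exact h3.elim
    · rw [hχ] at h3
      have h4 : true ≠ b := h3
      rcases b with _ | _
      · exact .inr rfl
      · exact absurd rfl h4
  -- the vertices with colours `a i`
  have hcounta : ∀ S : Finset (Fin f), {x | ∃ j ∈ S, χ x = .inr (.inl j)}.ncard =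
      ∑ j ∈ S, K (.inl j) :=
    ncard_fibers χ (fun j => .inr (.inl j)) (fun a b hab => by simpa using hab) _
      (fun j => hc _)
  have haset : {x | ∃ i ∈ (Finset.univ : Finset (Fin f)), χ x = .inr (.inl i)} =
      Set.range (emb : (Σ i : Fin f, Fin (K (.inl i))) → V ⊕ X K) := by
    refine Set.eq_of_subset_of_ncard_le ?_ ?_ (Set.toFinite _)
    · rintro x ⟨i, -, hx⟩
      rcases x with u | q | ⟨j | b, t⟩
      · rcases hB (.inl u) rfl with ⟨a, ha⟩ | ha
        · rw [hx] at ha
          cases ha
        · rw [hx] at ha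
          cases ha
      · rcases hB (.inr (.inl q)) rfl with ⟨a, ha⟩ | ha
        · rw [hx] at ha
          cases ha
        · rw [hx] at ha
          cases ha
      · exact ⟨⟨j, t⟩, rfl⟩
      · rcases b with _ | _
        · rcases hB (.inr (.inr ⟨.inr false, t⟩)) (by exact Bool.false_ne_true.symm)
            with ⟨a, ha⟩ | ha
          · rw [hx] at ha
            cases ha
          · rw [hx] at ha
            cases ha
        · rw [hZ t] at hx
          cases hx
    · rw [ncard_range _ emb_injective, hcounta, Fintype.card_sigma]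
      simp
  have hσ : ∀ p : (Σ i : Fin f, Fin (K (.inl i))), ∃ i, χ (emb p) = .inr (.inl i) := by
    intro p
    have h3 : (emb p : V ⊕ X K) ∈ Set.range
        (emb : (Σ i : Fin f, Fin (K (.inl i))) → V ⊕ X K) := ⟨p, rfl⟩
    rw [← haset] at h3
    obtain ⟨i, -, hi⟩ := h3
    exact ⟨i, hi⟩
  choose σ hσ using hσ
  -- the neighbourhoods
  let N : ℕ → Finset (Fin f) := fun i => Finset.univ.filter fun k : Fin f => f ≤ i + k + 1
  have hle : ∀ p, (p.1 : ℕ) ≤ σ p := by
    intro p
    by_contra hlt
    rw [not_le] at hlt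
    have h3 : N (σ p) ⊂ N p.1 := by
      rw [Finset.ssubset_iff_of_subset]
      · refine ⟨Fin.rev p.1, ?_, ?_⟩
        · simp only [N, Finset.mem_filter, Finset.mem_univ, true_and, Fin.val_rev]
          omega
        · simp only [N, Finset.mem_filter, Finset.mem_univ, true_and, Fin.val_rev]
          omega
      · intro k hk
        simp only [N, Finset.mem_filter, Finset.mem_univ, true_and] at hk ⊢
        omega
    have h4 : ∑ j ∈ N (σ p), K (.inl j) < ∑ j ∈ N p.1, K (.inl j) := by
      obtain ⟨k, hk, hk'⟩ := Finset.exists_of_ssubset h3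
      exact Finset.sum_lt_sum_of_subset h3.1 hk hk' (hK _) (fun _ _ _ => Nat.zero_le _)
    have h5 : ∑ j ∈ N p.1, K (.inl j) ≤ ∑ j ∈ N (σ p), K (.inl j) := by
      rw [← hcounta (N (σ p)), ← ncard_fibers (T := Σ i : Fin f, Fin (K (.inl i))) Sigma.fst id
        Function.injective_id (fun j => K (.inl j))
        (fun j => ncard_sigma (fun j => K (.inl j)) j) (N p.1),
        ← Set.ncard_image_of_injective _ (emb_injective (V := V) (K := K))]
      refine Set.ncard_le_ncard ?_ (Set.toFinite _)
      rintro x ⟨q, ⟨j, hj, hq⟩, rfl⟩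
      have h6 : q.1 = j := hq
      rw [← h6] at hj
      have h7 : f ≤ (p.1 : ℕ) + q.1 + 1 := by
        simpa only [N, Finset.mem_filter, Finset.mem_univ, true_and] using hj
      have h8 : eAdj F (χ (emb p)) (χ (emb q)) := h (emb p) (emb q) h7
      rw [hσ, hσ] at h8
      refine ⟨σ q, ?_, hσ q⟩
      simp only [N, Finset.mem_filter, Finset.mem_univ, true_and]
      exact h8
    omega
  have hfib : ∀ j : Fin f, (Finset.univ.filter fun p => σ p = j).card = K (.inl j) := by
    intro j
    rw [← hc (.inl j), ← Set.ncard_coe_finset,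
      ← Set.ncard_image_of_injective _ (emb_injective (V := V) (K := K))]
    congr 1
    ext x
    constructor
    · rintro ⟨q, hq, rfl⟩
      rw [Finset.mem_coe, Finset.mem_filter] at hq
      change χ _ = _
      rw [hσ, hq.2]
    · intro hx
      have h3 : x ∈ {x | ∃ i ∈ (Finset.univ : Finset (Fin f)), χ x = .inr (.inl i)} :=
        ⟨j, Finset.mem_univ _, hx⟩
      rw [haset] at h3
      obtain ⟨q, rfl⟩ := h3
      refine ⟨q, ?_, rfl⟩
      rw [Finset.mem_coe, Finset.mem_filter]
      refine ⟨Finset.mem_univ _, ?_⟩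
      have h4 : χ (emb q) = .inr (.inl j) := hx
      rw [hσ] at h4
      exact Sum.inl.inj (Sum.inr.inj h4)
  have hsum : ∑ p, (σ p : ℕ) = ∑ p : (Σ i : Fin f, Fin (K (.inl i))), (p.1 : ℕ) := by
    rw [← Finset.sum_fiberwise (Finset.univ) σ (fun p => (σ p : ℕ)),
      Fintype.sum_sigma (fun p : (Σ i : Fin f, Fin (K (.inl i))) => (p.1 : ℕ))]
    refine Finset.sum_congr rfl fun j _ => ?_
    rw [Finset.sum_congr rfl (fun p hp => by rw [(Finset.mem_filter.1 hp).2]), Finset.sum_const,
      hfib]
    change _ = ∑ _s : Fin (K (.inl j)), (j : ℕ)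
    rw [Finset.sum_const, Finset.card_univ, Fintype.card_fin]
  have hid : ∀ p, σ p = p.1 := by
    intro p
    by_contra hne
    have hlt : (p.1 : ℕ) < σ p :=
      lt_of_le_of_ne (hle p) fun hh => hne (Fin.ext hh.symm)
    have := Finset.sum_lt_sum (fun p _ => hle p) ⟨p, Finset.mem_univ p, hlt⟩
    omega
  -- the old vertices
  have hu : ∀ u : V, ∃ a : Fin f, a ∈ L u ∧ (χ (.inl u) = .inl a ∨
      χ (.inl u) = .inr (.inr false)) := by
    intro u
    have hX : ∀ i : Fin f, i ∉ L u → eAdj F (χ (.inl u)) (.inr (.inl i)) := by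
      intro i hi
      have h3 : eAdj F (χ (.inl u)) (χ (emb ⟨i, ⟨0, hK _⟩⟩)) :=
        h (.inl u) (emb ⟨i, ⟨0, hK _⟩⟩) hi
      rw [hσ, hid] at h3
      exact h3
    rcases hB (.inl u) rfl with ⟨a, ha⟩ | ha
    · refine ⟨a, ?_, .inl ha⟩
      by_contra haL
      have h3 := hX a haL
      rw [ha] at h3
      exact h3 rfl
    · refine ⟨⟨0, hf⟩, ?_, .inr ha⟩
      by_contra haL
      have h3 := hX _ haL
      rw [ha] at h3
      exact h3
  choose ψ hψ1 hψ2 using hu
  refine ⟨ψ, ?_, hψ1⟩
  intro u v huv
  have h3 : eAdj F (χ (.inl u)) (χ (.inl v)) := h (.inl u) (.inl v) huv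
  rcases hψ2 u with h4 | h4 <;> rcases hψ2 v with h5 | h5
  · rw [h4, h5] at h3
    exact h3
  · rw [h4, h5] at h3
    exact absurd (show false = true from h3) (by decide)
  · rw [h4, h5] at h3
    exact absurd (show false = true from h3) (by decide)
  · rw [h4, h5] at h3
    exact absurd rfl (show false ≠ false from h3)

end main

end Pool.Agent.Y12.HCKG
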