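import Pool.Agent.Y12.HCK.Gen
import Pool.Agent.Y12.HCK.Pos

/-!
The reduction from the list colouring problem to the weighted colouring problem with arbitrary
positive weights.
-/

namespace Pool.Agent.Y12.HCKG

open Pool.Agent.H685R2.Poly
open Pool.Agent.H685R2.Hck (LGraph IsHom listProblem weightedProblem IsExtension)

section index

variable (f : ℕ)

/-- numbering of the new colours -/
def eJ : J f ≃ Fin (f + 2) :=
  (Equiv.sumCongr (Equiv.refl _) finTwoEquiv.symm).trans finSumFinEquiv

/-- numbering of all colours -/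
def eW : Fin f ⊕ J f ≃ Fin (f + (f + 2)) :=
  (Equiv.sumCongr (Equiv.refl _) (eJ f)).trans finSumFinEquiv

/-- the extension of `F` -/
def HH (F : LGraph (Fin f)) : LGraph (Fin (f + (f + 2))) where
  Adj x y := eAdj F ((eW f).symm x) ((eW f).symm y)
  symm _ _ h := (ext F).symm _ _ h

/-- the new colours -/
def CC : Fin (f + 2) ↪ Fin (f + (f + 2)) :=
  ⟨fun j => eW f (.inr ((eJ f).symm j)), fun i j h => by
    have h1 := (eW f).injective h
    exact (eJ f).symm.injective (Sum.inr.inj h1)⟩

theorem CC_apply (x : J f) : CC f (eJ f x) = eW f (.inr x) := by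
  change eW f (.inr ((eJ f).symm (eJ f x))) = _
  rw [Equiv.symm_apply_apply]

theorem HH_adj (F : LGraph (Fin f)) (x y : Fin f ⊕ J f) :
    (HH f F).Adj (eW f x) (eW f y) ↔ (ext F).Adj x y := by
  change eAdj F ((eW f).symm (eW f x)) ((eW f).symm (eW f y)) ↔ _
  rw [Equiv.symm_apply_apply, Equiv.symm_apply_apply]
  exact Iff.rfl

theorem isExtension (F : LGraph (Fin f)) : IsExtension (HH f F) (CC f) F := by
  have h1 : ∀ a : Fin f, eW f (.inl a) ∉ Set.range (CC f) := by
    rintro a ⟨j, hj⟩
    have := (eW f).injective hj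
    cases this
  refine ⟨Equiv.ofBijective (fun a => ⟨eW f (.inl a), h1 a⟩) ⟨?_, ?_⟩, ?_⟩
  · intro a b h
    have h2 := congrArg Subtype.val h
    exact Sum.inl.inj ((eW f).injective h2)
  · rintro ⟨w, hw⟩
    obtain ⟨x, rfl⟩ := (eW f).surjective w
    rcases x with a | x
    · exact ⟨a, rfl⟩
    · exfalso
      apply hw
      exact ⟨eJ f x, CC_apply f x⟩
  · intro a b
    exact (HH_adj f F (.inl a) (.inl b)).symm

variable (K : Fin (f + 2) → ℕ)

/-- the weights, for the names of the colours -/
def KJ (j : J f) : ℕ := K (eJ f j)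

/-- the number of new vertices -/
noncomputable def RR : ℕ := Fintype.card (X (KJ f K))

/-- numbering of the new vertices -/
noncomputable def eX : X (KJ f K) ≃ Fin (RR f K) := Fintype.equivFin _

/-- the graph of the new vertices -/
noncomputable def EE : LGraph (Fin (RR f K)) where
  Adj x y := xAdj (KJ f K) ((eX f K).symm x) ((eX f K).symm y)
  symm x y h := by
    exact (red (V := Empty) (KJ f K) ⟨fun u _ => u.elim, fun u => u.elim⟩
      (fun u => u.elim)).symm (.inr _) (.inr _) h

/-- how a new vertex is attached -/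
def nbX (f : ℕ) (K' : J f → ℕ) : X K' → Bool × ℕ
  | .inl _ => (false, 0)
  | .inr ⟨.inl i, _⟩ => (true, i)
  | .inr ⟨.inr b, _⟩ => (b, f)

theorem link_iff_xlk {K' : J f → ℕ} (x : X K') (T : Set (Fin f)) :
    ((nbX f K' x).1 = true ∧ ∀ v ∈ T, (v : ℕ) ≠ (nbX f K' x).2) ↔ xlk K' x T := by
  rcases x with q | ⟨i | b, s⟩
  · exact ⟨fun h => absurd h.1 Bool.false_ne_true, fun h => h.elim⟩
  · constructor
    · intro h hi
      exact h.2 i hi rfl
    · intro h
      refine ⟨rfl, fun v hv hvi => ?_⟩
      have : v = i := Fin.ext hvi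
      rw [this] at hv
      exact h hv
  · constructor
    · intro h
      exact h.1
    · intro h
      refine ⟨h, fun v _ => ?_⟩
      have := v.2
      change (v : ℕ) ≠ f
      omega

/-- how a new vertex is attached -/
noncomputable def nbE (e : Fin (RR f K)) : Bool × ℕ := nbX f (KJ f K) ((eX f K).symm e)

theorem link_nbE (x : X (KJ f K)) (T : Set (Fin f)) :
    link f (RR f K) (nbE f K) T (eX f K x) ↔ xlk (KJ f K) x T := by
  rw [← link_iff_xlk, link, nbE, Equiv.symm_apply_apply]

/-- numbering of the vertices of the constructed graph -/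
noncomputable def eT (n : ℕ) : Fin n ⊕ X (KJ f K) ≃ Fin (n + RR f K) :=
  (Equiv.sumCongr (Equiv.refl _) (eX f K)).trans finSumFinEquiv

/-- the constructed graph -/
noncomputable def GG {n : ℕ} (G : LGraph (Fin n)) (L : Fin n → Set (Fin f)) :
    LGraph (Fin (n + RR f K)) :=
  gGraph f (RR f K) (EE f K) (nbE f K) G L

theorem GG_adj {n : ℕ} (G : LGraph (Fin n)) (L : Fin n → Set (Fin f))
    (x y : Fin n ⊕ X (KJ f K)) :
    (GG f K G L).Adj (eT f K n x) (eT f K n y) ↔ (red (KJ f K) G L).Adj x y := by
  have h1 : ∀ x, finSumFinEquiv.symm (eT f K n x) = Sum.map id (eX f K) x := by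
    intro x
    rw [Equiv.symm_apply_eq]
    rfl
  change gAdj f (RR f K) (EE f K) (nbE f K) G L (finSumFinEquiv.symm (eT f K n x))
    (finSumFinEquiv.symm (eT f K n y)) ↔ _
  rw [h1, h1]
  rcases x with u | x <;> rcases y with v | y
  · exact Iff.rfl
  · exact link_nbE f K y (L u)
  · exact link_nbE f K x (L v)
  · change xAdj (KJ f K) ((eX f K).symm (eX f K x)) ((eX f K).symm (eX f K y)) ↔
      xAdj (KJ f K) x y
    rw [Equiv.symm_apply_apply, Equiv.symm_apply_apply]

theorem weighted_iff_list (hK : ∀ i, 0 < K i) {n : ℕ} (F : LGraph (Fin f)) (G : LGraph (Fin n))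
    (L : Fin n → Set (Fin f)) :
    (∃ χ : Fin n → Fin f, IsHom G F χ ∧ ∀ u, χ u ∈ L u) ↔
    (∃ χ : Fin (n + RR f K) → Fin (f + (f + 2)),
      IsHom (GG f K G L) (HH f F) χ ∧ ∀ i, {u | χ u = CC f i}.ncard = K i) := by
  constructor
  · rintro ⟨χ, h1, h2⟩
    obtain ⟨χ', h3, h4⟩ := exists_weighted (K := KJ f K) h1 h2
    refine ⟨fun u => eW f (χ' ((eT f K n).symm u)), ?_, ?_⟩
    · intro u v huv
      obtain ⟨x, rfl⟩ := (eT f K n).surjective u
      obtain ⟨y, rfl⟩ := (eT f K n).surjective v
      rw [GG_adj] at huv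
      simp only [Equiv.symm_apply_apply]
      rw [HH_adj]
      exact h3 x y huv
    · intro j
      obtain ⟨x, rfl⟩ := (eJ f).surjective j
      have h6 : {u | eW f (χ' ((eT f K n).symm u)) = CC f (eJ f x)} =
          eT f K n '' {y | χ' y = .inr x} := by
        ext u
        rw [CC_apply]
        simp only [Set.mem_ofPred_eq, EmbeddingLike.apply_eq_iff_eq, Set.mem_image]
        constructor
        · intro h
          exact ⟨_, h, by simp⟩
        · rintro ⟨y, h, rfl⟩
          rw [Equiv.symm_apply_apply]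
          exact h
      rw [h6, Set.ncard_image_of_injective _ (eT f K n).injective, h4]
      rfl
  · rintro ⟨χ, h1, h2⟩
    refine exists_list (F := F) (G := G) (L := L) (K := KJ f K) (fun j => hK _)
      (χ := fun y => (eW f).symm (χ (eT f K n y))) ?_ ?_
    · intro x y hxy
      rw [← HH_adj f F, Equiv.apply_symm_apply, Equiv.apply_symm_apply]
      exact h1 _ _ ((GG_adj f K G L x y).2 hxy)
    · intro x
      refine Eq.trans ?_ (h2 (eJ f x))
      have h7 : {u | χ u = CC f (eJ f x)} =
          eT f K n '' {y | (eW f).symm (χ (eT f K n y)) = .inr x} := by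
        ext u
        rw [CC_apply]
        simp only [Set.mem_ofPred_eq, Set.mem_image]
        constructor
        · intro h
          refine ⟨(eT f K n).symm u, ?_, by simp⟩
          rw [Equiv.apply_symm_apply, h, Equiv.symm_apply_apply]
        · rintro ⟨y, h, rfl⟩
          rw [← h, Equiv.apply_symm_apply]
      rw [h7, Set.ncard_image_of_injective _ (eT f K n).injective]

end index

/-- The list `F`-colouring problem is reducible to the weighted colouring problem. -/
theorem list_reduces {f : ℕ} (F : LGraph (Fin f)) (K : Fin (f + 2) → ℕ) (hK : ∀ i, 0 < K i) :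
    Reduces (listProblem F) (weightedProblem (HH f F) (CC f) K) :=
  reduces_of_gGraph F (RR f K) (EE f K) (nbE f K)
    (weightedProblem (HH f F) (CC f) K).yes (fun _ G L => weighted_iff_list f K hK F G L)

end Pool.Agent.Y12.HCKG
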